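import Pool.Agent.Helper35_TB.Stmt3

set_option autoImplicit false

/-!
# FAR: dictionary between the two sets of definitions
-/

namespace Pool.Agent.HM.FAR.H34

open Complex Set Topology Pool.Agent.HM Pool.Agent.HM.FAR

noncomputable section

lemma cr_br (z w : ℂ) : Pool.Agent.HM.cr z w = Helper35TB.cr z w := by
  simp [Pool.Agent.HM.cr, Helper35TB.cr]
  ring

lemma dt_br (z w : ℂ) : Pool.Agent.HM.dt z w = Helper35TB.dt z w := by
  simp [Pool.Agent.HM.dt, Helper35TB.dt]

lemma FF_br (z : ℂ) : FF z = Helper35TB.K z := by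
  rw [FF, Helper35TB.K, Complex.real_smul, div_eq_inv_mul]
  push_cast
  rfl

lemma vA_br (m : Fin 3 → ℝ) (x y : ℂ) : vA m x y = y + (m 1 / (m 0 + m 1)) • x := by
  rw [vA, w1, Complex.real_smul]

lemma vB_br (m : Fin 3 → ℝ) (x y : ℂ) : vB m x y = y - (m 0 / (m 0 + m 1)) • x := by
  rw [vB, w0, Complex.real_smul]

theorem bridge : BridgeStmt := by
  intro m hm X hx hy
  have h0 := hm 0
  have h1 := hm 1
  have h2 := hm 2
  rw [abs_lt] at h0 h1 h2
  have p0 : 0 < m 0 := by linarith [h0.1]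
  have p1 : 0 < m 1 := by linarith [h1.1]
  have p2 : 0 < m 2 := by linarith [h2.1]
  have hx0 : ‖X.1‖ ≠ 0 := norm_ne_zero_iff.2 hx
  have hy0 : ‖X.2.1‖ ≠ 0 := norm_ne_zero_iff.2 hy
  have hab : m 0 + m 1 ≠ 0 := by positivity
  have hM : m 0 + m 1 + m 2 ≠ 0 := by positivity
  have habc : ((m 0 : ℂ) + (m 1 : ℂ)) ≠ 0 := by exact_mod_cast hab
  refine ⟨⟨(hm 0).le, (hm 1).le, (hm 2).le⟩, cr_br, dt_br, ?_, ?_, ?_, ?_, ?_, ?_, ?_, ?_⟩
  · rw [JVF]
    refine Prod.ext rfl (Prod.ext rfl (Prod.ext ?_ ?_))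
    · show _ = Helper35TB.accX (m 0) (m 1) (m 2) X.1 X.2.1
      rw [Helper35TB.accX, Helper35TB.fF, ← vA_br m X.1 X.2.1, ← vB_br m X.1 X.2.1]
      simp only [← FF_br, Complex.real_smul]
      push_cast
      ring
    · show _ = Helper35TB.accY (m 0) (m 1) (m 2) X.1 X.2.1
      rw [Helper35TB.accY, Helper35TB.gF, ← vA_br m X.1 X.2.1, ← vB_br m X.1 X.2.1]
      simp only [← FF_br, Complex.real_smul, mT]
      push_cast
      field_simp
      ring
  · simp only [JE, Helper35TB.En, Helper35TB.mub, Helper35TB.muo, Helper35TB.eb, Helper35TB.eo,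
      Helper35TB.Wf, k1, k2, ← vA_br, ← vB_br]
    have e1 : m 0 * m 1 / (m 0 + m 1) * ((m 0 + m 1) / ‖X.1‖) = m 0 * m 1 / ‖X.1‖ := by
      field_simp
    have e2 : m 2 * (m 0 + m 1) / (m 0 + m 1 + m 2) * ((m 0 + m 1 + m 2) / ‖X.2.1‖) =
        m 2 * (m 0 + m 1) / ‖X.2.1‖ := by
      field_simp
    rw [mul_sub, mul_sub, e1, e2]
    ring
  · simp only [JMu, Helper35TB.Am, Helper35TB.mub, Helper35TB.muo, k1, k2, cr_br]
  · rw [SS, Helper35TB.Sr, dt_br]
  · rw [EO, Helper35TB.eo, mT]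
    field_simp
  · rw [lrl, cr_br, Helper35TB.Lap]
    apply Complex.ext
    · rw [Complex.sub_re, neg_div, Complex.neg_re, Complex.div_ofReal_re,
        Complex.div_ofReal_re]
      simp
      ring
    · rw [Complex.sub_im, neg_div, Complex.neg_im, Complex.div_ofReal_im,
        Complex.div_ofReal_im]
      simp
      ring
  · rw [outm, cr_br, Helper35TB.Lap]
    apply Complex.ext
    · rw [Complex.add_re, Complex.div_ofReal_re, Complex.div_ofReal_re]
      simp [mT]
      ring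
    · rw [Complex.add_im, Complex.div_ofReal_im, Complex.div_ofReal_im]
      simp [mT]
      ring
  · intro h17 h11
    have q0 : m 0 / (m 0 + m 1) ≤ 1 := by
      rw [div_le_one (by positivity)]
      linarith
    have q1 : m 1 / (m 0 + m 1) ≤ 1 := by
      rw [div_le_one (by positivity)]
      linarith
    have r0 : 0 ≤ m 0 / (m 0 + m 1) := by positivity
    have r1 : 0 ≤ m 1 / (m 0 + m 1) := by positivity
    refine ⟨hx, ?_, ?_⟩
    · rw [vA_br]
      intro h
      have h3 : ‖X.2.1‖ = ‖(m 1 / (m 0 + m 1)) • X.1‖ := by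
        rw [eq_neg_of_add_eq_zero_left h, norm_neg]
      rw [norm_smul, Real.norm_of_nonneg r1] at h3
      nlinarith [norm_nonneg X.1, mul_le_mul_of_nonneg_right q1 (norm_nonneg X.1)]
    · rw [vB_br]
      intro h
      have h3 : ‖X.2.1‖ = ‖(m 0 / (m 0 + m 1)) • X.1‖ := by
        rw [sub_eq_zero.1 h]
      rw [norm_smul, Real.norm_of_nonneg r0] at h3
      nlinarith [norm_nonneg X.1, mul_le_mul_of_nonneg_right q0 (norm_nonneg X.1)]

end

end Pool.Agent.HM.FAR.H34
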