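import Pool.Agent.Helper34_HM.FarRate2

set_option autoImplicit false

/-!
# FAR_RATE: the frame of the outer body
-/

namespace Pool.Agent.Helper35TB.H34

open Pool.Agent.Helper35TB Pool.Agent.HM.FAR

noncomputable section

/-- the unit vector of the outer body in the frame of a vector -/
lemma fr_CD {A y : ℂ} (hA0 : 0 < ‖A‖) (hR0 : 0 < ‖y‖)
    (hC2 : |dt A y| ≤ 0.11725 * (‖A‖ * ‖y‖)) (hC1 : 0.0791 * (‖A‖ * ‖y‖) ≤ |dt A y|)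
    (hneg : dt A y * cr A y < 0) :
    ∃ C D : ℝ, dt A y = C * (‖A‖ * ‖y‖) ∧ cr A y = D * (‖A‖ * ‖y‖) ∧ C ^ 2 + D ^ 2 = 1 ∧
      |C| ≤ 0.11725 ∧ 0.0791 ≤ |C| ∧ C * D < 0 := by
  have hAR : 0 < ‖A‖ * ‖y‖ := mul_pos hA0 hR0
  have hAR' : ‖A‖ * ‖y‖ ≠ 0 := hAR.ne'
  have hCabs : |dt A y / (‖A‖ * ‖y‖)| = |dt A y| / (‖A‖ * ‖y‖) := by
    rw [abs_div, abs_of_pos hAR]
  refine ⟨dt A y / (‖A‖ * ‖y‖), cr A y / (‖A‖ * ‖y‖), (div_mul_cancel₀ _ hAR').symm,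
    (div_mul_cancel₀ _ hAR').symm, ?_, ?_, ?_, ?_⟩
  · rw [div_pow, div_pow, ← add_div, lagrange_id, mul_pow]
    exact div_self (by positivity)
  · rw [hCabs, div_le_iff₀ hAR]
    exact hC2
  · rw [hCabs, le_div_iff₀ hAR]
    exact hC1
  · rw [div_mul_div_comm]
    exact div_neg_of_neg_of_pos hneg (by positivity)

/-- the pair vector in the frame of the outer body -/
lemma fr_P {A x y : ℂ} {C D P p q : ℝ} (hAR : 0 < ‖A‖ * ‖y‖) (hxA : dt x A = p)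
    (hxA2 : cr x A = q) (hCy : dt A y = C * (‖A‖ * ‖y‖)) (hDy : cr A y = D * (‖A‖ * ‖y‖))
    (hPy : dt x y = P * ‖y‖) : P * ‖A‖ = p * C - q * D := by
  have i1 := dt_decomp A x y
  rw [hxA, hxA2, hCy, hDy, hPy] at i1
  have i2 : (P * ‖A‖) * (‖A‖ * ‖y‖) = (p * C - q * D) * (‖A‖ * ‖y‖) := by
    linear_combination i1
  exact mul_right_cancel₀ hAR.ne' i2

lemma fr_Q {A x y : ℂ} {C D Q p q : ℝ} (hAR : 0 < ‖A‖ * ‖y‖) (hxA : dt x A = p)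
    (hxA2 : cr x A = q) (hCy : dt A y = C * (‖A‖ * ‖y‖)) (hDy : cr A y = D * (‖A‖ * ‖y‖))
    (hQy : cr x y = Q * ‖y‖) : Q * ‖A‖ = p * D + q * C := by
  have i1 := cr_decomp A x y
  rw [hxA, hxA2, hCy, hDy, hQy] at i1
  have i2 : (Q * ‖A‖) * (‖A‖ * ‖y‖) = (p * D + q * C) * (‖A‖ * ‖y‖) := by
    linear_combination i1
  exact mul_right_cancel₀ hAR.ne' i2

end

end Pool.Agent.Helper35TB.H34
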