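import Pool.Agent.Helper34_HM.FarRate2

set_option autoImplicit false

/-!
# FAR_RATE: the identities
-/

namespace Pool.Agent.Helper35TB.H34

open Pool.Agent.Helper35TB Pool.Agent.HM.FAR

noncomputable section

lemma Pf_eq {m l e r s C D P : ℝ} (he : e ≠ 0)
    (hP : P * e = -(r - l ^ 2 / m) * C - l * s / m * D) : Pf m l e r s C D = P := by
  rw [Pf, ← hP]
  exact mul_div_cancel_right₀ _ he

lemma Qf_eq {m l e r s C D Q : ℝ} (he : e ≠ 0)
    (hQ : Q * e = -(r - l ^ 2 / m) * D + l * s / m * C) : Qf m l e r s C D = Q := by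
  rw [Qf, ← hQ]
  exact mul_div_cancel_right₀ _ he

lemma id_FL {a b c l e r s C D P Q κ d : ℝ} {x y : ℂ} (hR : ‖y‖ ≠ 0)
    (hPf : Pf (a + b) l e r s C D = P) (hQf : Qf (a + b) l e r s C D = Q)
    (hκ2 : kp a b x y - kq a b x y = 3 * Del a b x y * κ / ‖y‖ ^ 5)
    (hDel : Del a b x y = (P + d) * ‖y‖) (hQy : cr x y = Q * ‖y‖) :
    ‖y‖ ^ 3 * cr x (fF a b c x y) = FLf (a + b) c l e r s C D κ d := by
  rw [FLf, hPf, hQf, cr_fF, hκ2, hDel, hQy]
  field_simp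

lemma id_Af {a b c l e r s C D P κ K2 d : ℝ} {x y A : ℂ} (hR : ‖y‖ ≠ 0)
    (hPf : Pf (a + b) l e r s C D = P)
    (hκ2 : kp a b x y - kq a b x y = 3 * Del a b x y * κ / ‖y‖ ^ 5)
    (hDel : Del a b x y = (P + d) * ‖y‖) (hCy : dt A y = C * (e * ‖y‖))
    (hxA : dt x A = l ^ 2 / (a + b) - r)
    (hK2 : K2 = ‖y‖ ^ 3 * (a / (a + b) * kp a b x y + b / (a + b) * kq a b x y)) :
    ‖y‖ ^ 3 * dt A (fF a b c x y) = Aff (a + b) c l e r s C D κ K2 d := by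
  have i1 : dt A x = dt x A := by
    simp only [dt]
    ring
  rw [Aff, hPf, dt_fF, hκ2, hDel, hCy, i1, hxA, hK2]
  field_simp
  ring

end

end Pool.Agent.Helper35TB.H34
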