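import Pool.Agent.Helper34_HM.FarRate2

set_option autoImplicit false

/-!
# FAR_RATE: the two angular velocities
-/

namespace Pool.Agent.Helper35TB.H34

open Pool.Agent.Helper35TB Pool.Agent.HM.FAR

noncomputable section

lemma id_in {m σ l s X Y : ℝ} {x u F : ℂ} {R : ℝ} (hx : ‖x‖ ≠ 0) (hm : m ≠ 0)
    (hA : ‖Lap m x u‖ ≠ 0) (hl : l = σ * cr x u) (hs : s = -(σ * dt x u))
    (hX : R ^ 3 * cr x F = X) (hY : R ^ 3 * dt (Lap m x u) F = Y) :
    -σ * (R ^ 3 * omg m x u F) = (X * s / ‖x‖ + l * Y) / (m * ‖Lap m x u‖ ^ 2) := by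
  have i1 : dt (Lap m x u) u = -(dt x u / ‖x‖) := dt_lap_vel m x u
  rw [← hX, ← hY, omg, i1, hs, hl]
  generalize ‖Lap m x u‖ = e at *
  generalize dt (Lap m x u) F = Z at *
  field_simp

lemma id_out {M σ kh S X : ℝ} {y v G : ℂ} {R : ℝ} (hM : M ≠ 0) (hA : ‖Lap M y v‖ ≠ 0)
    (hvel : dt (Lap M y v) v = -S)
    (hX : R ^ 3 * cr y G = -(M * (kh * ‖Lap M y v‖ ^ 2)) * X) :
    σ * (R ^ 3 * omg M y v G) = kh * -(σ * S) * X -
      σ * (R ^ 3 * (cr y v * dt (Lap M y v) G)) / (M * ‖Lap M y v‖ ^ 2) := by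
  rw [omg, hvel]
  generalize ‖Lap M y v‖ = e at *
  generalize dt (Lap M y v) G = Z at *
  have h2 : R ^ 3 * -(cr y G * -S + cr y v * Z) =
      -(M * (kh * e ^ 2)) * X * S - R ^ 3 * (cr y v * Z) := by
    rw [← hX]
    ring
  have h3 : R ^ 3 * (-(cr y G * -S + cr y v * Z) / (M * e ^ 2)) =
      (R ^ 3 * -(cr y G * -S + cr y v * Z)) / (M * e ^ 2) := (mul_div_assoc _ _ _).symm
  rw [h3, h2]
  field_simp

end

end Pool.Agent.Helper35TB.H34
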