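import Pool.Agent.Helper34_HM.FarRateA
import Pool.Agent.Helper34_HM.FarRateB
import Pool.Agent.Helper34_HM.FarRateC
import Pool.Agent.Helper34_HM.FarRateD

set_option autoImplicit false

/-!
# FAR_RATE
-/

namespace Pool.Agent.Helper35TB.H34

open Pool.Agent.Helper35TB Pool.Agent.HM.FAR

noncomputable section

variable {a b c : ℝ} {x y u v : ℂ}

theorem rate_core (h : MassB a b c) (hx : x ≠ 0) (hE : En a b c x y u v = -1)
    (hA : Am a b c x y u v = 0) (ho : |eo a b c y v| ≤ 0.00123) (hr1 : ‖x‖ ≤ 1.002)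
    (hR : 23.3 ≤ ‖y‖) (hS : |Sr y v| ≤ 0.505) (σ : ℝ) (hσ : σ = 1 ∨ σ = -1)
    (hl1 : 0.0885 ≤ σ * cr x u) (hl2 : σ * cr x u ≤ 0.1005)
    (hC2 : |dt (Lap (a + b) x u) y| ≤ 0.11725 * (‖Lap (a + b) x u‖ * ‖y‖))
    (hC1 : 0.0791 * (‖Lap (a + b) x u‖ * ‖y‖) ≤ |dt (Lap (a + b) x u) y|)
    (hneg : dt (Lap (a + b) x u) y * cr (Lap (a + b) x u) y < 0) :
    ∃ l e r s C D k1 k2 d kh sv : ℝ, IneqHyp (a + b) c l e r s C D k1 k2 d ∧
      |kh - 0.25| ≤ 0.0003 ∧ |sv| ≤ 0.505 ∧ l ^ 2 ≤ 2.0001 * (a + b) * r ∧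
      ‖y‖ ^ 3 * cr x (fF a b c x y) = FLf (a + b) c l e r s C D k1 d ∧
      |-σ * (‖y‖ ^ 3 * (omg (a + b) x u (fF a b c x y)
        - omg (a + b + c) y v (gF a b c x y))) - Gf (a + b) c l e r s C D k1 k2 d kh sv|
        ≤ 0.0032 := by
  have hm1 := h.m1
  have hm2 := h.m2
  have hM1 := h.M1
  have hc1 := h.c1
  have hc2 := h.c2
  have hm0 : 0 < a + b := lt_of_lt_of_le (by norm_num) hm1
  have hM0 : 0 < a + b + c := lt_of_lt_of_le (by norm_num) hM1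
  have hc0 : 0 < c := lt_of_lt_of_le (by norm_num) hc1
  have hR0 : 0 < ‖y‖ := lt_of_lt_of_le (by norm_num) hR
  have hy : y ≠ 0 := norm_pos_iff.1 hR0
  have hr0 : 0 < ‖x‖ := norm_pos_iff.2 hx
  have hσ2 : σ ^ 2 = 1 := by rcases hσ with rfl | rfl <;> norm_num
  have hσa : |σ| = 1 := by rcases hσ with rfl | rfl <;> norm_num
  obtain ⟨e1, e2⟩ := eb_bd h hE ho hr1 hR
  have hxu := xu_sq (u := u) hx a b
  obtain ⟨l, hl⟩ : ∃ l, l = σ * cr x u := ⟨_, rfl⟩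
  obtain ⟨s, hs⟩ : ∃ s, s = -(σ * dt x u) := ⟨_, rfl⟩
  rw [← hl] at hl1 hl2
  have hll : l ^ 2 = cr x u ^ 2 := by rw [hl, mul_pow, hσ2, one_mul]
  have hl2l : 0.00783225 ≤ l ^ 2 := by
    have := pow_le_pow_left₀ (by norm_num) hl1 2
    norm_num at this ⊢
    exact this
  have hl2u : l ^ 2 ≤ 0.01010025 := by
    have := pow_le_pow_left₀ (le_trans (by norm_num) hl1) hl2 2
    norm_num at this ⊢
    exact this
  have hsr : s ^ 2 = 2 * (a + b) * ‖x‖ + 2 * eb a b x u * ‖x‖ ^ 2 - l ^ 2 := by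
    rw [hs, neg_sq, mul_pow, hσ2, one_mul, hxu, hll]
  obtain ⟨hsb, hlr, hr2⟩ := rs_size hm1 hm2 hr0 hr1 e2 hl2l hsr
  -- the Laplace vector
  have hAsq : ‖Lap (a + b) x u‖ ^ 2 = 1 + 2 * eb a b x u * l ^ 2 / (a + b) ^ 2 := by
    rw [norm_lap_sq (a + b) x u hx hm0.ne', eb, hll]
  obtain ⟨hA1, hA2⟩ := rs_A hm1 hm2 e1 e2 hl2l hl2u
  rw [← hAsq] at hA1 hA2
  have hA0 : 0 < ‖Lap (a + b) x u‖ := by
    rcases (norm_nonneg (Lap (a + b) x u)).eq_or_lt with h0 | h0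
    · rw [← h0] at hA1
      norm_num at hA1
    · exact h0
  have hAR : 0 < ‖Lap (a + b) x u‖ * ‖y‖ := mul_pos hA0 hR0
  obtain ⟨C, D, hCy, hDy, hCD, hCu, hCl, hCDn⟩ := fr_CD hA0 hR0 hC2 hC1 hneg
  -- the pair vector in the frame of the outer body
  have hxA : dt x (Lap (a + b) x u) = l ^ 2 / (a + b) - ‖x‖ := by
    rw [hll]
    exact dt_lap_pos (a + b) x u hx
  have hxA2 : cr x (Lap (a + b) x u) = l * s / (a + b) := by
    have i1 : cr x (Lap (a + b) x u) = -(cr x u * dt x u / (a + b)) := cr_lap_pos (a + b) x u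
    have i2 : l * s = -(cr x u * dt x u) := by
      have : l * s = -(σ ^ 2 * (cr x u * dt x u)) := by rw [hl, hs]; ring
      rw [this, hσ2, one_mul]
    rw [i1, i2, neg_div]
  obtain ⟨P, hPy⟩ : ∃ P, dt x y = P * ‖y‖ := ⟨dt x y / ‖y‖, (div_mul_cancel₀ _ hR0.ne').symm⟩
  obtain ⟨Q, hQy⟩ : ∃ Q, cr x y = Q * ‖y‖ := ⟨cr x y / ‖y‖, (div_mul_cancel₀ _ hR0.ne').symm⟩
  have hPe : P * ‖Lap (a + b) x u‖ =
      -(‖x‖ - l ^ 2 / (a + b)) * C - l * s / (a + b) * D := by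
    rw [fr_P hAR hxA hxA2 hCy hDy hPy]
    ring
  have hQe : Q * ‖Lap (a + b) x u‖ =
      -(‖x‖ - l ^ 2 / (a + b)) * D + l * s / (a + b) * C := by
    rw [fr_Q hAR hxA hxA2 hCy hDy hQy]
    ring
  have hm2' : |a + b - 2| ≤ 1 / 10 ^ 5 := by
    rw [abs_le]
    constructor
    · norm_num
      linarith only [hm1]
    · norm_num
      linarith only [hm2]
  have hc2' : |c - 1| ≤ 1 / 10 ^ 5 := by
    rw [abs_le]
    constructor
    · norm_num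
      linarith only [hc1]
    · norm_num
      linarith only [hc2]
  have hPb : |P| ≤ 0.14 := P_bd hm2' (le_trans (by norm_num) hl1) (hl2.trans (by norm_num)) hA0
    hA1 hr0 hsb hCD (hCu.trans (by norm_num)) hlr hPe
  have hPb' : |dt x y| ≤ 0.14 * ‖y‖ := by
    rw [hPy, abs_mul, abs_of_pos hR0]
    exact mul_le_mul_of_nonneg_right hPb hR0.le
  obtain ⟨⟨κ, hκ1, hκ2⟩, hk2⟩ := corr h hr2 hR hPb'
  obtain ⟨K2, hK2⟩ : ∃ K2, K2 = ‖y‖ ^ 3 * (a / (a + b) * kp a b x y + b / (a + b) * kq a b x y) :=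
    ⟨_, rfl⟩
  rw [← hK2] at hk2
  obtain ⟨d, hd⟩ : ∃ d, d = (b / (a + b) - a / (a + b)) * ‖x‖ ^ 2 / 2 / ‖y‖ := ⟨_, rfl⟩
  have hDel : Del a b x y = (P + d) * ‖y‖ := by
    rw [Del, hPy, hd, add_mul, div_mul_cancel₀ _ hR0.ne']
  have hdb : |d| ≤ 1 / 10 ^ 5 := by
    rw [hd]
    exact rs_d h.be1 h.be2 h.al1 h.al2 hr0 hr2 hR
  -- outer orbit
  have hH1abs : |cr x u| ≤ 0.1005 := by
    have : |l| = |cr x u| := by rw [hl, abs_mul, hσa, one_mul]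
    rw [← this, abs_of_nonneg (le_trans (by norm_num) hl1)]
    exact hl2
  have hHb := H_bd h hA hH1abs
  have hAo := abs_le.1 (Ao_bd h hy hHb ho)
  have hsm := outer_small h hr2 hR hHb hS
  have hAo1 : 0.9999984 ≤ ‖Lap (a + b + c) y v‖ ^ 2 := by
    have := hAo.1
    linarith only [this]
  have hAo2 : ‖Lap (a + b + c) y v‖ ^ 2 ≤ 1.0000016 := by
    have := hAo.2
    linarith only [this]
  have hAo0 : ‖Lap (a + b + c) y v‖ ≠ 0 := by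
    intro h0
    rw [h0] at hAo1
    norm_num at hAo1
  have hvel : dt (Lap (a + b + c) y v) v = -Sr y v := by
    rw [dt_lap_vel, Sr]
  have hkhb := rs_kh h.be1 h.be2 h.al1 h.al2 hc1 hc2 hAo1 hAo2
  have hPf := Pf_eq hA0.ne' hPe
  have hQf := Qf_eq hA0.ne' hQe
  have hFL := id_FL (c := c) hR0.ne' hPf hQf hκ2 hDel hQy
  have hAf := id_Af (c := c) hR0.ne' hPf hκ2 hDel hCy hxA hK2
  have hin := id_in (σ := σ) (R := ‖y‖) hr0.ne' hm0.ne' hA0.ne' hl hs hFL hAf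
  obtain ⟨kh, hkh⟩ : ∃ kh, kh = a / (a + b) * (b / (a + b)) / (c * ‖Lap (a + b + c) y v‖ ^ 2) :=
    ⟨_, rfl⟩
  rw [← hkh] at hkhb
  have hG : ‖y‖ ^ 3 * cr y (gF a b c x y) =
      -((a + b + c) * (kh * ‖Lap (a + b + c) y v‖ ^ 2)) *
        FLf (a + b) c l ‖Lap (a + b) x u‖ ‖x‖ s C D κ d := by
    rw [← hFL, hkh, cr_gF, cr_fF]
    generalize ‖Lap (a + b + c) y v‖ = e' at *
    generalize kp a b x y = kp' at *
    generalize kq a b x y = kq' at *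
    field_simp
    ring
  have hout := id_out (σ := σ) (R := ‖y‖) hM0.ne' hAo0 hvel hG
  refine ⟨l, ‖Lap (a + b) x u‖, ‖x‖, s, C, D, κ, K2, d, kh, -(σ * Sr y v), ?_, hkhb, ?_, hlr,
    hFL, ?_⟩
  · exact ⟨hm2', hc2', le_trans (by norm_num) hl1, hl2.trans (by norm_num), hA0, hA1,
      hA2, hr0, hr2, hsb, hCD, hCDn, le_trans (by norm_num) hCl, hCu.trans (by norm_num), hκ1,
      hk2, hdb⟩
  · rw [abs_neg, abs_mul, hσa, one_mul]
    exact hS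
  · have hfin : -σ * (‖y‖ ^ 3 * (omg (a + b) x u (fF a b c x y)
        - omg (a + b + c) y v (gF a b c x y))) -
        Gf (a + b) c l ‖Lap (a + b) x u‖ ‖x‖ s C D κ K2 d kh (-(σ * Sr y v)) =
        -(σ * (‖y‖ ^ 3 * (cr y v * dt (Lap (a + b + c) y v) (gF a b c x y))) /
          ((a + b + c) * ‖Lap (a + b + c) y v‖ ^ 2)) := by
      rw [Gf]
      linear_combination hin + hout
    rw [hfin, abs_neg]
    exact rs_err hσa hM1 hAo1 (hsm.trans (by norm_num))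

end

end Pool.Agent.Helper35TB.H34

namespace Pool.Agent.HM.FAR.H34

open Pool.Agent.HM Pool.Agent.HM.FAR

theorem rate : Ineq1Stmt → Ineq2Stmt → Ineq3Stmt → BridgeStmt → RateStmt := by
  intro hI1 hI2 hI3 hB m hm X hX s hs h1 h2 h3 h4 h5
  obtain ⟨hg, hlev, r1, r2, R1, hE, hS, L1, L2⟩ := hX
  have hx : X.1 ≠ 0 := by
    intro h
    rw [h, norm_zero] at r1
    norm_num at r1
  have hy : X.2.1 ≠ 0 := by
    intro h
    rw [h, norm_zero] at R1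
    norm_num at R1
  obtain ⟨b1, b2, b3, -, b5, b6, b7, b8, b9, -, -⟩ := hB m hm X hx hy
  rw [b2] at h1 h2
  rw [b3, b9] at h3 h4
  rw [b3, b2, b9] at h5
  rw [b7] at hS
  have ho : |Helper35TB.eo (m 0) (m 1) (m 2) X.2.1 X.2.2.2| ≤ 0.00123 := by
    rw [b8, abs_mul, abs_of_pos (by norm_num : (0 : ℝ) < 2 / 3)] at hE
    linarith only [hE]
  have hEn : Helper35TB.En (m 0) (m 1) (m 2) X.1 X.2.1 X.2.2.1 X.2.2.2 = -1 := by
    rw [← b5]
    exact hlev.2.1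
  have hAm : Helper35TB.Am (m 0) (m 1) (m 2) X.1 X.2.1 X.2.2.1 X.2.2.2 = 0 := by
    rw [← b6]
    exact hlev.2.2
  obtain ⟨l, e, r, s', C, D, k1, k2, d, kh, sv, i1, i2, i3, i4, i5, i6⟩ :=
    Helper35TB.H34.rate_core b1.toB hx hEn hAm ho r2 R1 hS s hs h1 h2 h3 h4 h5
  have j1 := hI1 _ _ _ _ _ _ _ _ _ _ _ i1
  have j2 := hI2 _ _ _ _ _ _ _ _ _ _ _ _ _ i1 i2 i3 i4
  have j3 := hI3 _ _ _ _ _ _ _ _ _ _ _ _ _ i1 i2 i3 i4
  have i6' := abs_le.1 i6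
  rw [omr, b2, i5]
  refine ⟨by linarith only [j1.1], by linarith only [j1.2], by linarith only [j2.1, i6'.1],
    by linarith only [j2.2, i6'.2], by linarith only [j3, i6'.1]⟩

end Pool.Agent.HM.FAR.H34
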