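import Pool.Agent.Helper35_TB.Stmt3

set_option autoImplicit false

/-!
# FAR_RATE: auxiliary facts
-/

namespace Pool.Agent.Helper35TB.H34

open Pool.Agent.Helper35TB

noncomputable section

variable {a b c : ℝ} {x y u v : ℂ}

lemma mub_bd (h : MassB a b c) : 0.499999 ≤ mub a b ∧ mub a b ≤ 0.500001 := by
  have ha := abs_le.1 h.ha
  have hb := abs_le.1 h.hb
  have hm1 := h.m1
  have hm2 := h.m2
  have hpos : 0 < a + b := by linarith
  rw [mub]
  constructor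
  · rw [le_div_iff₀ hpos]
    nlinarith [mul_nonneg (show (0 : ℝ) ≤ a - 0.999999 by linarith)
      (show (0 : ℝ) ≤ b - 0.999999 by linarith)]
  · rw [div_le_iff₀ hpos]
    nlinarith [mul_nonneg (show (0 : ℝ) ≤ 1.000001 - a by linarith)
      (show (0 : ℝ) ≤ b - 0.999999 by linarith)]

lemma muo_bd (h : MassB a b c) : 0.66666 ≤ muo a b c ∧ muo a b c ≤ 0.66667 := by
  have hm1 := h.m1
  have hm2 := h.m2
  have hc1 := h.c1
  have hc2 := h.c2
  have hpos : 0 < a + b + c := by linarith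
  rw [muo]
  constructor
  · rw [le_div_iff₀ hpos]
    nlinarith [mul_nonneg (show (0 : ℝ) ≤ a + b - 1.999998 by linarith)
      (show (0 : ℝ) ≤ c - 0.999999 by linarith)]
  · rw [div_le_iff₀ hpos]
    nlinarith [mul_nonneg (show (0 : ℝ) ≤ 2.000002 - (a + b) by linarith)
      (show (0 : ℝ) ≤ c - 0.999999 by linarith)]

/-- energy of the pair -/
lemma eb_bd (h : MassB a b c) (hE : En a b c x y u v = -1) (ho : |eo a b c y v| ≤ 0.00123)
    (hr : ‖x‖ ≤ 1.002) (hR : 23.3 ≤ ‖y‖) :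
    -2.00176 ≤ eb a b x u ∧ eb a b x u ≤ -1.99824 := by
  obtain ⟨m1, m2⟩ := mub_bd h
  obtain ⟨o1, o2⟩ := muo_bd h
  have hW := Wf_bound h (by linarith : ‖x‖ ≤ 2) (by linarith : (22.5 : ℝ) ≤ ‖y‖)
  have hW2 : 0.6 * ‖x‖ ^ 2 / ‖y‖ ^ 3 ≤ 0.00004765 := by
    have h1 : ‖x‖ ^ 2 ≤ 1.002 ^ 2 := pow_le_pow_left₀ (norm_nonneg x) hr 2
    have h2 : (23.3 : ℝ) ^ 3 ≤ ‖y‖ ^ 3 := pow_le_pow_left₀ (by norm_num) hR 3
    rw [div_le_iff₀ (by positivity)]
    nlinarith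
  have hW3 := abs_le.1 (hW.trans hW2)
  have ho1 := abs_le.1 ho
  have hmo : |muo a b c * eo a b c y v| ≤ 0.00082005 := by
    rw [abs_mul, abs_of_nonneg (by linarith)]
    calc muo a b c * |eo a b c y v| ≤ 0.66667 * 0.00123 := by gcongr
      _ ≤ _ := by norm_num
  have hmo1 := abs_le.1 hmo
  rw [En] at hE
  have hk : mub a b * eb a b x u = -1 - muo a b c * eo a b c y v + Wf a b c x y := by linarith
  have k1 : -1.00086770 ≤ mub a b * eb a b x u := by rw [hk]; linarith [hmo1.2, hW3.1]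
  have k2 : mub a b * eb a b x u ≤ -0.9991323 := by rw [hk]; linarith [hmo1.1, hW3.2]
  have hneg : eb a b x u ≤ 0 := by
    by_contra hh
    push Not at hh
    have := mul_pos (show 0 < mub a b by linarith) hh
    linarith
  constructor
  · by_contra hh
    push Not at hh
    nlinarith
  · by_contra hh
    push Not at hh
    nlinarith

/-- kinetic energy of the pair in terms of radial and transversal parts -/
lemma xu_sq (hx : x ≠ 0) (a b : ℝ) :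
    dt x u ^ 2 = 2 * (a + b) * ‖x‖ + 2 * eb a b x u * ‖x‖ ^ 2 - cr x u ^ 2 := by
  have hx0 : ‖x‖ ≠ 0 := norm_ne_zero_iff.2 hx
  have h1 := lagrange_id x u
  have h2 : ‖u‖ ^ 2 = 2 * eb a b x u + 2 * ((a + b) / ‖x‖) := by
    rw [eb]
    ring
  have h3 : ‖x‖ ^ 2 * ‖u‖ ^ 2 = 2 * (a + b) * ‖x‖ + 2 * eb a b x u * ‖x‖ ^ 2 := by
    rw [h2]
    field_simp
    ring
  linarith

lemma dt_decomp (A x y : ℂ) : dt x y * ‖A‖ ^ 2 = dt x A * dt A y - cr x A * cr A y := by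
  rw [norm_sq_eq]
  simp only [dt, cr]
  ring

lemma cr_decomp (A x y : ℂ) : cr x y * ‖A‖ ^ 2 = dt x A * cr A y + cr x A * dt A y := by
  rw [norm_sq_eq]
  simp only [dt, cr]
  ring

/-- distances of the outer body from the two bodies of the pair -/
lemma dist_sq_bd (h : MassB a b c) (hr : ‖x‖ ≤ 1.0006) (hR : 23.3 ≤ ‖y‖)
    (hP : |dt x y| ≤ 0.14 * ‖y‖) :
    (0.99695 * ‖y‖ ≤ ‖y - (a / (a + b)) • x‖ ∧ ‖y - (a / (a + b)) • x‖ ≤ 1.00325 * ‖y‖) ∧
    (0.99695 * ‖y‖ ≤ ‖y + (b / (a + b)) • x‖ ∧ ‖y + (b / (a + b)) • x‖ ≤ 1.00325 * ‖y‖) ∧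
    0.99998 * ‖y‖ ^ 2 ≤ ‖y - (a / (a + b)) • x‖ * ‖y + (b / (a + b)) • x‖ ∧
    ‖y - (a / (a + b)) • x‖ * ‖y + (b / (a + b)) • x‖ ≤ 1.00047 * ‖y‖ ^ 2 := by
  have hp := normp_sq (a / (a + b)) x y
  have hq := normq_sq (b / (a + b)) x y
  have hs := h.sum
  have be1 := h.be1
  have be2 := h.be2
  have al1 := h.al1
  have al2 := h.al2
  set p := ‖y - (a / (a + b)) • x‖ with hpd
  set q := ‖y + (b / (a + b)) • x‖ with hqd
  set β := a / (a + b)
  set α := b / (a + b)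
  have hp0 : 0 ≤ p := norm_nonneg _
  have hq0 : 0 ≤ q := norm_nonneg _
  have hx0 : 0 ≤ ‖x‖ := norm_nonneg _
  set R := ‖y‖
  set r := ‖x‖
  set P := dt x y
  have hR0 : 0 < R := by linarith
  have hP1 := (abs_le.1 hP).1
  have hP2 := (abs_le.1 hP).2
  have hr2 : r ^ 2 ≤ 1.0012004 := by nlinarith
  have hr20 : 0 ≤ r ^ 2 := sq_nonneg _
  have hR2 : 23.3 * R ≤ R ^ 2 := by nlinarith
  have hR3 : (542.89 : ℝ) ≤ R ^ 2 := by nlinarith
  -- bounds of the squares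
  have hβr1 : 0 ≤ β ^ 2 * r ^ 2 := by positivity
  have hβr2 : β ^ 2 * r ^ 2 ≤ 0.2504 := by
    have : β ^ 2 ≤ 0.250002 := by nlinarith
    calc β ^ 2 * r ^ 2 ≤ 0.250002 * 1.0012004 := by gcongr
      _ ≤ _ := by norm_num
  have hαr1 : 0 ≤ α ^ 2 * r ^ 2 := by positivity
  have hαr2 : α ^ 2 * r ^ 2 ≤ 0.2504 := by
    have : α ^ 2 ≤ 0.250002 := by nlinarith
    calc α ^ 2 * r ^ 2 ≤ 0.250002 * 1.0012004 := by gcongr
      _ ≤ _ := by norm_num
  have hβP : |2 * β * P| ≤ 0.1400004 * R := by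
    rw [abs_mul, abs_of_nonneg (by linarith : (0 : ℝ) ≤ 2 * β)]
    calc 2 * β * |P| ≤ (2 * 0.500001) * (0.14 * R) := by gcongr
      _ ≤ _ := by nlinarith
  have hαP : |2 * α * P| ≤ 0.1400004 * R := by
    rw [abs_mul, abs_of_nonneg (by linarith : (0 : ℝ) ≤ 2 * α)]
    calc 2 * α * |P| ≤ (2 * 0.500001) * (0.14 * R) := by gcongr
      _ ≤ _ := by nlinarith
  obtain ⟨b1, b2⟩ := abs_le.1 hβP
  obtain ⟨a1, a2⟩ := abs_le.1 hαP
  have hp2l : 0.993991 * R ^ 2 ≤ p ^ 2 := by rw [hp]; linarith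
  have hp2u : p ^ 2 ≤ 1.006471 * R ^ 2 := by rw [hp]; linarith
  have hq2l : 0.993991 * R ^ 2 ≤ q ^ 2 := by rw [hq]; linarith
  have hq2u : q ^ 2 ≤ 1.006471 * R ^ 2 := by rw [hq]; linarith
  have lo : ∀ t : ℝ, 0 ≤ t → 0.993991 * R ^ 2 ≤ t ^ 2 → 0.99695 * R ≤ t := by
    intro t ht h1
    refine le_of_sq_le_sq ?_ ht
    rw [mul_pow]
    linarith [mul_nonneg (show (0 : ℝ) ≤ 0.993991 - 0.99695 ^ 2 by norm_num) (sq_nonneg R)]
  have up : ∀ t : ℝ, 0 ≤ t → t ^ 2 ≤ 1.006471 * R ^ 2 → t ≤ 1.00325 * R := by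
    intro t ht h1
    refine le_of_sq_le_sq ?_ (by positivity)
    rw [mul_pow]
    linarith [mul_nonneg (show (0 : ℝ) ≤ 1.00325 ^ 2 - 1.006471 by norm_num) (sq_nonneg R)]
  have lop := lo p hp0 hp2l
  have loq := lo q hq0 hq2l
  have hdiff : |(α - β) * P| ≤ 0.0000003 * R := by
    rw [abs_mul]
    have : |α - β| ≤ 0.000002 := by rw [abs_le]; constructor <;> linarith
    calc |α - β| * |P| ≤ 0.000002 * (0.14 * R) := by gcongr
      _ ≤ _ := by linarith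
  obtain ⟨d1, d2⟩ := abs_le.1 hdiff
  have hsumsq : p ^ 2 + q ^ 2 = 2 * R ^ 2 + 2 * ((α - β) * P) + (β ^ 2 * r ^ 2 + α ^ 2 * r ^ 2) := by
    rw [hp, hq]
    ring
  refine ⟨⟨lop, up p hp0 hp2u⟩, ⟨loq, up q hq0 hq2u⟩, ?_, ?_⟩
  · have hqp : |q - p| ≤ 0.14045 := by
      have h1 : (q - p) * (q + p) = 2 * P + (α - β) * r ^ 2 := by
        have h2 : (q - p) * (q + p) = q ^ 2 - p ^ 2 := by ring
        rw [h2, hp, hq]
        have h3 : α = 1 - β := by linarith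
        rw [h3]
        ring
      have h4 : |(α - β) * r ^ 2| ≤ 0.0000021 := by
        rw [abs_mul, abs_of_nonneg hr20]
        have : |α - β| ≤ 0.000002 := by rw [abs_le]; constructor <;> linarith
        calc |α - β| * r ^ 2 ≤ 0.000002 * 1.0012004 := by gcongr
          _ ≤ _ := by norm_num
      have h5 : |(q - p) * (q + p)| ≤ 0.28001 * R := by
        rw [h1]
        refine (abs_add_le _ _).trans ?_
        rw [abs_mul, abs_two]
        linarith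
      rw [abs_mul, abs_of_nonneg (by linarith : 0 ≤ q + p)] at h5
      by_contra hh
      push Not at hh
      have h6 : 0.14045 * (1.9939 * R) ≤ |q - p| * (q + p) :=
        mul_le_mul hh.le (by linarith) (by positivity) (abs_nonneg _)
      linarith
    have h7 : (q - p) ^ 2 ≤ 0.0197263 := by
      rw [← sq_abs]
      calc |q - p| ^ 2 ≤ 0.14045 ^ 2 := pow_le_pow_left₀ (abs_nonneg _) hqp 2
        _ ≤ _ := by norm_num
    have h8 : p * q = (p ^ 2 + q ^ 2) / 2 - (q - p) ^ 2 / 2 := by ring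
    rw [h8, hsumsq]
    linarith
  · have h8 : p * q ≤ (p ^ 2 + q ^ 2) / 2 := by
      linarith [sq_nonneg (q - p)]
    rw [hsumsq] at h8
    linarith

/-- correction factors -/
lemma corr (h : MassB a b c) (hr : ‖x‖ ≤ 1.0006) (hR : 23.3 ≤ ‖y‖)
    (hP : |dt x y| ≤ 0.14 * ‖y‖) :
    (∃ κ : ℝ, |κ - 1| ≤ 0.0045 ∧ kp a b x y - kq a b x y = 3 * Del a b x y * κ / ‖y‖ ^ 5) ∧
    |‖y‖ ^ 3 * (a / (a + b) * kp a b x y + b / (a + b) * kq a b x y) - 1| ≤ 0.015 := by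
  obtain ⟨⟨p1, p2⟩, ⟨q1, q2⟩, pq1, pq2⟩ := dist_sq_bd h hr hR hP
  have hR0 : 0 < ‖y‖ := by linarith
  constructor
  · obtain ⟨κ, k1, k2, k3⟩ := inv_cube_sub' (p := ‖y - (a / (a + b)) • x‖)
      (q := ‖y + (b / (a + b)) • x‖) (ρ := ‖y‖) (l := 0.99695) (h := 1.00325) (l2 := 0.99998)
      (h2 := 1.00047) hR0 (by norm_num) (by norm_num) p1 p2 q1 q2 pq1 pq2 (Del_eq h)
    refine ⟨κ, ?_, k3⟩
    rw [abs_le]
    constructor
    · have : (1 : ℝ) - 0.0045 ≤ 0.99695 / 1.00047 ^ 3 := by norm_num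
      linarith
    · have : 1.00325 / 0.99998 ^ 3 ≤ (1 : ℝ) + 0.0045 := by norm_num
      linarith
  · have key : ∀ d : ℝ, 0.99695 * ‖y‖ ≤ d → d ≤ 1.00325 * ‖y‖ →
        0.985 ≤ ‖y‖ ^ 3 * (d ^ 3)⁻¹ ∧ ‖y‖ ^ 3 * (d ^ 3)⁻¹ ≤ 1.015 := by
      intro d h1 h2
      have hd : 0 < d := lt_of_lt_of_le (by positivity) h1
      have h3 := pow_le_pow_left₀ (by positivity) h1 3
      have h4 := pow_le_pow_left₀ hd.le h2 3
      rw [mul_pow] at h3 h4
      have h5 : 0 < ‖y‖ ^ 3 := by positivity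
      rw [← div_eq_mul_inv]
      constructor
      · rw [le_div_iff₀ (by positivity)]
        nlinarith
      · rw [div_le_iff₀ (by positivity)]
        nlinarith
    obtain ⟨u1, u2⟩ := key _ p1 p2
    obtain ⟨v1, v2⟩ := key _ q1 q2
    have hs := h.sum
    have hb0 : 0 ≤ a / (a + b) := by linarith [h.be1]
    have ha0 : 0 ≤ b / (a + b) := by linarith [h.al1]
    have e : ‖y‖ ^ 3 * (a / (a + b) * kp a b x y + b / (a + b) * kq a b x y) =
        a / (a + b) * (‖y‖ ^ 3 * kp a b x y) + b / (a + b) * (‖y‖ ^ 3 * kq a b x y) := by ring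
    have u1' := mul_le_mul_of_nonneg_left u1 hb0
    have u2' := mul_le_mul_of_nonneg_left u2 hb0
    have v1' := mul_le_mul_of_nonneg_left v1 ha0
    have v2' := mul_le_mul_of_nonneg_left v2 ha0
    rw [e, abs_le]
    unfold kp kq
    constructor <;> linarith

end

end Pool.Agent.Helper35TB.H34
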