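import Pool.Agent.Helper34_HM.FarRate1

set_option autoImplicit false

/-!
# FAR_RATE: reduction to the real inequalities
-/

namespace Pool.Agent.Helper35TB.H34

open Pool.Agent.Helper35TB Pool.Agent.HM.FAR

noncomputable section

lemma P_bd {m l e r s C D P : ℝ} (hm : |m - 2| ≤ 1 / 10 ^ 5) (hl1 : 0.0884 ≤ l)
    (hl2 : l ≤ 0.1006) (he0 : 0 < e) (he1 : 0.98986 ≤ e ^ 2) (hr0 : 0 < r)
    (hs : s ^ 2 ≤ 4.00002 * r - 3.996 * r ^ 2 - 0.0078) (hCD : C ^ 2 + D ^ 2 = 1)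
    (hC2 : |C| ≤ 0.1173) (hlr : l ^ 2 ≤ 2.0001 * m * r)
    (hP : P * e = -(r - l ^ 2 / m) * C - l * s / m * D) : |P| ≤ 0.14 := by
  have hm' := abs_le.1 hm
  have m1 : 1.99999 ≤ m := by linarith [hm'.1]
  have m2 : m ≤ 2.00001 := by linarith [hm'.2]
  have hm0 : 0 < m := by linarith
  have he : 0.9949 ≤ e := by
    refine le_of_sq_le_sq ?_ he0.le
    linarith
  have hD : |D| ≤ 1 := by
    rw [← sq_le_one_iff_abs_le_one]
    linarith [sq_nonneg C]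
  have hR1 : |r - l ^ 2 / m| ≤ 1.0001 * r := by
    have h1 : l ^ 2 / m ≤ 2.0001 * r := by
      rw [div_le_iff₀ hm0]
      linarith
    have h2 : 0 ≤ l ^ 2 / m := by positivity
    rw [abs_le]
    constructor <;> linarith
  have hlm : l / m ≤ 0.05031 := by
    rw [div_le_iff₀ hm0]
    linarith
  have hlm0 : 0 ≤ l / m := by positivity
  have hs2 : |s| ≤ 0.7681 * s ^ 2 + 0.3255 := by
    rw [← sq_abs s]
    nlinarith [sq_nonneg (|s| - 0.651)]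
  have h1 : |P * e| ≤ 1.0001 * r * 0.1173 + 0.05031 * |s| := by
    rw [hP]
    refine (abs_sub _ _).trans (add_le_add ?_ ?_)
    · rw [abs_mul, abs_neg]
      gcongr
    · have : l * s / m * D = (l / m) * (s * D) := by ring
      rw [this, abs_mul, abs_mul, abs_of_nonneg hlm0]
      calc l / m * (|s| * |D|) ≤ 0.05031 * (|s| * 1) := by gcongr
        _ = _ := by ring
  rw [abs_mul, abs_of_pos he0] at h1
  have h2 : |P| * 0.9949 ≤ |P| * e := mul_le_mul_of_nonneg_left he (abs_nonneg _)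
  have h4 : |P| * 0.9949 ≤ 0.139286 := by
    nlinarith [sq_nonneg (r - 0.8804)]
  linarith

variable {a b c : ℝ} {x y u v : ℂ}

/-- angular momentum of the outer orbit -/
lemma H_bd (h : MassB a b c) (hA : Am a b c x y u v = 0) (hl : |cr x u| ≤ 0.1005) :
    |cr y v| ≤ 0.0754 := by
  obtain ⟨m1, m2⟩ := mub_bd h
  obtain ⟨o1, o2⟩ := muo_bd h
  rw [Am] at hA
  have h1 : muo a b c * cr y v = -(mub a b * cr x u) := by linarith
  have h2 : |muo a b c * cr y v| = |mub a b * cr x u| := by rw [h1, abs_neg]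
  have n1 : |mub a b| = mub a b := abs_of_nonneg (by linarith)
  have n2 : |muo a b c| = muo a b c := abs_of_nonneg (by linarith)
  rw [abs_mul, abs_mul, n1, n2] at h2
  have h3 : mub a b * |cr x u| ≤ 0.500001 * 0.1005 := by gcongr
  have h4 : 0.66666 * |cr y v| ≤ muo a b c * |cr y v| :=
    mul_le_mul_of_nonneg_right o1 (abs_nonneg _)
  linarith

lemma Ao_bd (h : MassB a b c) (hy : y ≠ 0) (hH : |cr y v| ≤ 0.0754)
    (ho : |eo a b c y v| ≤ 0.00123) : |‖Lap (a + b + c) y v‖ ^ 2 - 1| ≤ 0.0000016 := by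
  have hM1 := h.M1
  have hM0 : 0 < a + b + c := by linarith
  rw [norm_lap_sq (a + b + c) y v hy hM0.ne']
  have e : 1 + 2 * (‖v‖ ^ 2 / 2 - (a + b + c) / ‖y‖) * cr y v ^ 2 / (a + b + c) ^ 2 - 1 =
      2 * eo a b c y v * (cr y v ^ 2 / (a + b + c) ^ 2) := by
    rw [eo]
    ring
  rw [e, abs_mul, abs_mul, abs_two, abs_of_nonneg (by positivity : 0 ≤ cr y v ^ 2 / (a + b + c) ^ 2)]
  have h1 : cr y v ^ 2 ≤ 0.0754 ^ 2 := by
    rw [← sq_abs]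
    exact pow_le_pow_left₀ (abs_nonneg _) hH 2
  have h2 : (2.999997 : ℝ) ^ 2 ≤ (a + b + c) ^ 2 := pow_le_pow_left₀ (by norm_num) hM1 2
  have h3 : cr y v ^ 2 / (a + b + c) ^ 2 ≤ 0.0754 ^ 2 / 2.999997 ^ 2 := by gcongr
  calc 2 * |eo a b c y v| * (cr y v ^ 2 / (a + b + c) ^ 2)
      ≤ 2 * 0.00123 * (0.0754 ^ 2 / 2.999997 ^ 2) := by gcongr
    _ ≤ _ := by norm_num

/-- the outer tidal term is small -/
lemma outer_small (h : MassB a b c) (hr : ‖x‖ ≤ 1.0006) (hR : 23.3 ≤ ‖y‖)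
    (hH : |cr y v| ≤ 0.0754) (hS : |Sr y v| ≤ 0.505) :
    |‖y‖ ^ 3 * (cr y v * dt (Lap (a + b + c) y v) (gF a b c x y))| ≤ 0.00914 := by
  have hR0 : 0 < ‖y‖ := by linarith
  have hy : y ≠ 0 := norm_pos_iff.1 hR0
  have hM1 := h.M1
  have hM0 : 0 < a + b + c := by linarith
  set A := Lap (a + b + c) y v with hAd
  set g := gF a b c x y with hgd
  have hg1 := dt_gF_coarse h (by linarith : ‖x‖ ≤ 1.1) (by linarith : (22.5 : ℝ) ≤ ‖y‖)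
  have hg2 := cr_gF_coarse h (by linarith : ‖x‖ ≤ 1.1) (by linarith : (22.5 : ℝ) ≤ ‖y‖)
  rw [← hgd] at hg1 hg2
  have hx2 : ‖x‖ ^ 2 ≤ 1.00121 := by nlinarith [norm_nonneg x]
  have hd := dt_decomp y A g
  have e1 : dt A y = cr y v ^ 2 / (a + b + c) - ‖y‖ := by
    rw [← dt_lap_pos (a + b + c) y v hy]
    simp only [dt]
    ring
  have e2 : cr A y = cr y v * dt y v / (a + b + c) := by
    have := cr_lap_pos (a + b + c) y v
    have h2 : cr A y = -cr y A := by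
      simp only [cr]
      ring
    rw [h2, this, neg_neg]
  have b1 : |dt A y| ≤ ‖y‖ := by
    rw [e1]
    have h1 : cr y v ^ 2 ≤ 0.0754 ^ 2 := by
      rw [← sq_abs]
      exact pow_le_pow_left₀ (abs_nonneg _) hH 2
    have h2 : 0 ≤ cr y v ^ 2 / (a + b + c) := by positivity
    have h3 : cr y v ^ 2 / (a + b + c) ≤ 1 := by
      rw [div_le_one hM0]
      linarith
    rw [abs_le]
    constructor <;> linarith
  have b2 : |cr A y| ≤ 0.0127 * ‖y‖ := by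
    rw [e2, abs_div, abs_mul, abs_of_pos hM0, div_le_iff₀ hM0]
    have h1 : |dt y v| ≤ 0.505 * ‖y‖ := by
      rw [Sr, abs_div, abs_of_pos hR0, div_le_iff₀ hR0] at hS
      exact hS
    calc |cr y v| * |dt y v| ≤ 0.0754 * (0.505 * ‖y‖) := by gcongr
      _ ≤ 0.0127 * ‖y‖ * (a + b + c) := by nlinarith
  have hr2 : 0 ≤ ‖x‖ ^ 2 / ‖y‖ ^ 3 := by positivity
  have b3 : |dt A g * ‖y‖ ^ 2| ≤ 2.8173 * (‖x‖ ^ 2 / ‖y‖ ^ 3) * ‖y‖ := by
    rw [hd]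
    refine (abs_sub _ _).trans ?_
    rw [abs_mul, abs_mul]
    have c1 : |dt A y| * |dt y g| ≤ ‖y‖ * (2.8 * ‖x‖ ^ 2 / ‖y‖ ^ 3) := by gcongr
    have c2 : |cr A y| * |cr y g| ≤ 0.0127 * ‖y‖ * (1.36 * ‖x‖ ^ 2 / ‖y‖ ^ 3) := by gcongr
    have e3 : ‖y‖ * (2.8 * ‖x‖ ^ 2 / ‖y‖ ^ 3) + 0.0127 * ‖y‖ * (1.36 * ‖x‖ ^ 2 / ‖y‖ ^ 3) =
        2.817272 * ((‖x‖ ^ 2 / ‖y‖ ^ 3) * ‖y‖) := by ring
    have e4 : 0 ≤ (‖x‖ ^ 2 / ‖y‖ ^ 3) * ‖y‖ := by positivity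
    calc _ ≤ _ := add_le_add c1 c2
      _ = _ := e3
      _ ≤ _ := by linarith
  have b4 : ‖y‖ ^ 3 * |dt A g| ≤ 2.8173 * 1.00121 / 23.3 := by
    rw [abs_mul, abs_of_nonneg (by positivity : 0 ≤ ‖y‖ ^ 2)] at b3
    have e5 : ‖y‖ ^ 3 * |dt A g| = |dt A g| * ‖y‖ ^ 2 * ‖y‖ := by ring
    rw [e5]
    calc |dt A g| * ‖y‖ ^ 2 * ‖y‖ ≤ 2.8173 * (‖x‖ ^ 2 / ‖y‖ ^ 3) * ‖y‖ * ‖y‖ := by gcongr
      _ = 2.8173 * ‖x‖ ^ 2 / ‖y‖ := by field_simp
      _ ≤ 2.8173 * 1.00121 / 23.3 := by gcongr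
  rw [abs_mul, abs_mul, abs_of_nonneg (by positivity : 0 ≤ ‖y‖ ^ 3)]
  calc ‖y‖ ^ 3 * (|cr y v| * |dt A g|) = |cr y v| * (‖y‖ ^ 3 * |dt A g|) := by ring
    _ ≤ 0.0754 * (2.8173 * 1.00121 / 23.3) := by gcongr
    _ ≤ _ := by norm_num

end

end Pool.Agent.Helper35TB.H34
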