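import Pool.Agent.Helper34_HM.FarRate2

set_option autoImplicit false

/-!
# FAR_RATE: real inequalities of the reduction
-/

namespace Pool.Agent.Helper35TB.H34

noncomputable section

lemma rs_size {m r e l s : ℝ} (hm1 : 1.999998 ≤ m) (hm2 : m ≤ 2.000002) (hr : 0 < r)
    (hr1 : r ≤ 1.002) (e2 : e ≤ -1.99824) (h1 : 0.00783225 ≤ l ^ 2)
    (hsr : s ^ 2 = 2 * m * r + 2 * e * r ^ 2 - l ^ 2) :
    s ^ 2 ≤ 4.00002 * r - 3.996 * r ^ 2 - 0.0078 ∧ l ^ 2 ≤ 2.0001 * m * r ∧ r ≤ 1.0006 := by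
  have i1 : 2 * m * r ≤ 4.00002 * r := mul_le_mul_of_nonneg_right (by linarith) hr.le
  have i2 : 2 * e * r ^ 2 ≤ -3.996 * r ^ 2 :=
    mul_le_mul_of_nonneg_right (by linarith) (sq_nonneg _)
  have hsb : s ^ 2 ≤ 4.00002 * r - 3.996 * r ^ 2 - 0.0078 := by
    rw [hsr]
    linarith
  refine ⟨hsb, ?_, ?_⟩
  · have j1 := sq_nonneg s
    have j2 : 2 * e * r ^ 2 ≤ 0 := mul_nonpos_of_nonpos_of_nonneg (by linarith) (sq_nonneg _)
    have j3 : 0 < m * r := mul_pos (by linarith) hr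
    rw [hsr] at j1
    linarith
  · by_contra hh
    push Not at hh
    have j1 := (sq_nonneg s).trans hsb
    linarith [mul_pos hr (sub_pos.2 hh)]

lemma rs_A {m e l : ℝ} (hm1 : 1.999998 ≤ m) (hm2 : m ≤ 2.000002) (e1 : -2.00176 ≤ e)
    (e2 : e ≤ -1.99824) (h1 : 0.00783225 ≤ l ^ 2) (h2 : l ^ 2 ≤ 0.01010025) :
    0.98986 ≤ 1 + 2 * e * l ^ 2 / m ^ 2 ∧ 1 + 2 * e * l ^ 2 / m ^ 2 ≤ 0.99222 := by
  have hmsq1 : (1.999998 : ℝ) ^ 2 ≤ m ^ 2 := pow_le_pow_left₀ (by norm_num) hm1 2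
  have hmsq2 : m ^ 2 ≤ (2.000002 : ℝ) ^ 2 := pow_le_pow_left₀ (by linarith) hm2 2
  have hm0 : 0 < m ^ 2 := by linarith
  have hfr : l ^ 2 / m ^ 2 ≤ 0.0025251 := by
    rw [div_le_iff₀ hm0]
    linarith
  have hfr2 : 0.001958 ≤ l ^ 2 / m ^ 2 := by
    rw [le_div_iff₀ hm0]
    linarith
  have he : 1 + 2 * e * l ^ 2 / m ^ 2 = 1 + 2 * (e * (l ^ 2 / m ^ 2)) := by ring
  rw [he]
  constructor
  · have i1 : -2.00176 * (l ^ 2 / m ^ 2) ≤ e * (l ^ 2 / m ^ 2) :=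
      mul_le_mul_of_nonneg_right e1 (by linarith)
    linarith
  · have i1 : e * (l ^ 2 / m ^ 2) ≤ -1.99824 * (l ^ 2 / m ^ 2) :=
      mul_le_mul_of_nonneg_right e2 (by linarith)
    linarith

lemma rs_d {α β r R : ℝ} (hα1 : 0.499999 ≤ α) (hα2 : α ≤ 0.500001) (hβ1 : 0.499999 ≤ β)
    (hβ2 : β ≤ 0.500001) (hr0 : 0 < r) (hr : r ≤ 1.0006) (hR : 23.3 ≤ R) :
    |(β - α) * r ^ 2 / 2 / R| ≤ 1 / 10 ^ 5 := by
  have hR0 : 0 < R := by linarith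
  have i1 : |β - α| ≤ 0.000002 := by
    rw [abs_le]
    constructor <;> linarith
  have i2 : r ^ 2 ≤ 1.01 := by nlinarith
  rw [abs_div, abs_div, abs_mul, abs_of_pos hR0, abs_two, abs_of_nonneg (sq_nonneg r),
    div_le_iff₀ hR0]
  calc |β - α| * r ^ 2 / 2 ≤ 0.000002 * 1.01 / 2 := by gcongr
    _ ≤ 1 / 10 ^ 5 * R := by linarith

lemma rs_kh {α β c n : ℝ} (hα1 : 0.499999 ≤ α) (hα2 : α ≤ 0.500001) (hβ1 : 0.499999 ≤ β)
    (hβ2 : β ≤ 0.500001) (hc1 : 0.999999 ≤ c) (hc2 : c ≤ 1.000001) (hn1 : 0.9999984 ≤ n)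
    (hn2 : n ≤ 1.0000016) : |α * β / (c * n) - 0.25| ≤ 0.0003 := by
  have i1 : α * β ≤ 0.500001 * 0.500001 := mul_le_mul hα2 hβ2 (by linarith) (by norm_num)
  have i2 : 0.499999 * 0.499999 ≤ α * β := mul_le_mul hα1 hβ1 (by norm_num) (by linarith)
  have i3 : 0.999999 * 0.9999984 ≤ c * n := mul_le_mul hc1 hn1 (by norm_num) (by linarith)
  have i4 : c * n ≤ 1.000001 * 1.0000016 := mul_le_mul hc2 hn2 (by linarith) (by norm_num)
  have i5 : 0 < c * n := by linarith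
  rw [abs_le]
  constructor
  · have : 0.2497 ≤ α * β / (c * n) := by
      rw [le_div_iff₀ i5]
      linarith
    linarith
  · have : α * β / (c * n) ≤ 0.2503 := by
      rw [div_le_iff₀ i5]
      linarith
    linarith

lemma rs_err {σ w M n : ℝ} (hσa : |σ| = 1) (hM : 2.999997 ≤ M) (hn : 0.9999984 ≤ n)
    (hw : |w| ≤ 0.0095) : |σ * w / (M * n)| ≤ 0.0032 := by
  have i5 : 0 < M * n := mul_pos (by linarith) (by linarith)
  rw [abs_div, abs_mul, hσa, one_mul, abs_of_pos i5, div_le_iff₀ i5]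
  have i3 : 2.999997 * 0.9999984 ≤ M * n := mul_le_mul hM hn (by norm_num) (by linarith)
  linarith

end

end Pool.Agent.Helper35TB.H34
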