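import Pool.Agent.Helper49_HM.LC

/-!
# Changes of labels map arcs to arcs
-/

namespace Pool.Agent.HM.H34

open Complex Set Topology Pool.Agent.HM

noncomputable section

lemma FF_neg (z : ℂ) : FF (-z) = -FF z := by
  simp only [FF, norm_neg, neg_div]

/-! ### masses -/

lemma exm_exm (m : Fin 3 → ℝ) : exm (exm m) = m := by
  funext i
  fin_cases i <;> rfl

lemma swm_swm (m : Fin 3 → ℝ) : swm (swm m) = m := by
  funext i
  fin_cases i <;> rfl

/-! ### positions -/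

section
variable {m : Fin 3 → ℝ} (hm : ∀ i, 0 < m i)
include hm

lemma w01 : (w0 m : ℂ) + (w1 m : ℂ) = 1 := by
  have h0 := hm 0
  have h1 := hm 1
  rw [← Complex.ofReal_add]
  have : w0 m + w1 m = 1 := by
    simp only [w0, w1]
    field_simp
  rw [this, Complex.ofReal_one]

lemma hm_ex : ∀ i, 0 < exm m i := by
  intro i
  fin_cases i
  · exact hm 0
  · exact hm 2
  · exact hm 1

lemma hm_sw : ∀ i, 0 < swm m i := by
  intro i
  fin_cases i
  · exact hm 2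
  · exact hm 1
  · exact hm 0

omit hm in
lemma vA_ex (p : ℂ × ℂ) : vA (exm m) (exv m p).1 (exv m p).2 = p.1 := by
  simp only [exv, vA]
  ring

lemma vB_ex (p : ℂ × ℂ) : vB (exm m) (exv m p).1 (exv m p).2 = -vB m p.1 p.2 := by
  have h := w01 (hm_ex hm)
  have h' := w01 hm
  have e : vB (exm m) (exv m p).1 (exv m p).2 =
      p.1 - ((w0 (exm m) : ℂ) + (w1 (exm m) : ℂ)) * vA m p.1 p.2 := by
    simp only [exv, vB]
    ring
  rw [e, h]
  simp only [vA, vB]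
  linear_combination (-p.1) * h'

omit hm in
lemma vA_sw (p : ℂ × ℂ) : vA (swm m) (swv m p).1 (swv m p).2 = -vA m p.1 p.2 := by
  have e : vA (swm m) (swv m p).1 (swv m p).2 = -vA m p.1 p.2 +
      (w1 (swm m) : ℂ) * vB m p.1 p.2 - (w1 (swm m) : ℂ) * vB m p.1 p.2 := by
    conv_lhs => unfold swv
    rw [vA]
    ring
  rw [e]
  ring

lemma vB_sw (p : ℂ × ℂ) : vB (swm m) (swv m p).1 (swv m p).2 = -p.1 := by
  have h := w01 (hm_sw hm)
  have h' := w01 hm
  have e : vB (swm m) (swv m p).1 (swv m p).2 = -vA m p.1 p.2 +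
      ((w0 (swm m) : ℂ) + (w1 (swm m) : ℂ)) * vB m p.1 p.2 := by
    conv_lhs => unfold swv
    rw [vB]
    ring
  rw [e, h]
  simp only [vA, vB]
  linear_combination (-p.1) * h'

lemma exv_exv (p : ℂ × ℂ) : exv (exm m) (exv m p) = p := by
  have h1 : vA (exm m) (exv m p).1 (exv m p).2 = p.1 := vA_ex p
  refine Prod.ext ?_ ?_
  · exact h1
  · show (exv m p).1 - (w1 (exm (exm m)) : ℂ) * vA (exm m) (exv m p).1 (exv m p).2 = p.2
    rw [h1, exm_exm]
    show vA m p.1 p.2 - (w1 m : ℂ) * p.1 = p.2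
    rw [vA]
    ring

lemma swv_swv (p : ℂ × ℂ) : swv (swm m) (swv m p) = p := by
  have h1 := vA_sw (m := m) p
  have h2 := vB_sw hm p
  refine Prod.ext ?_ ?_
  · show -vB (swm m) (swv m p).1 (swv m p).2 = p.1
    rw [h2, neg_neg]
  · show -vA (swm m) (swv m p).1 (swv m p).2 + (w1 (swm (swm m)) : ℂ) *
      vB (swm m) (swv m p).1 (swv m p).2 = p.2
    rw [h1, h2, swm_swm]
    rw [vA]
    ring

lemma free_ex {X : JS} (h : Free m X) : Free (exm m) (exj m X) := by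
  refine ⟨h.2.1, ?_, ?_⟩
  · show vA (exm m) (exv m (X.1, X.2.1)).1 (exv m (X.1, X.2.1)).2 ≠ 0
    rw [vA_ex]
    exact h.1
  · show vB (exm m) (exv m (X.1, X.2.1)).1 (exv m (X.1, X.2.1)).2 ≠ 0
    rw [vB_ex hm]
    exact neg_ne_zero.2 h.2.2

lemma free_sw {X : JS} (h : Free m X) : Free (swm m) (sw m X) := by
  refine ⟨neg_ne_zero.2 h.2.2, ?_, ?_⟩
  · show vA (swm m) (swv m (X.1, X.2.1)).1 (swv m (X.1, X.2.1)).2 ≠ 0
    rw [vA_sw]
    exact neg_ne_zero.2 h.2.1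
  · show vB (swm m) (swv m (X.1, X.2.1)).1 (swv m (X.1, X.2.1)).2 ≠ 0
    rw [vB_sw hm]
    exact neg_ne_zero.2 h.1

/-! ### vector field -/

lemma vf_ex (X : JS) : exj m (JVF m X) = JVF (exm m) (exj m X) := by
  have h0 := hm 0
  have h1 := hm 1
  have h2 := hm 2
  have c01 : ((m 0 : ℂ) + (m 1 : ℂ)) ≠ 0 := by
    rw [← Complex.ofReal_add]; exact_mod_cast (by positivity : m 0 + m 1 ≠ 0)
  have c02 : ((m 0 : ℂ) + (m 2 : ℂ)) ≠ 0 := by
    rw [← Complex.ofReal_add]; exact_mod_cast (by positivity : m 0 + m 2 ≠ 0)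
  have eA : vA (exm m) (exj m X).1 (exj m X).2.1 = X.1 := vA_ex (m := m) (X.1, X.2.1)
  have eB : vB (exm m) (exj m X).1 (exj m X).2.1 = -vB m X.1 X.2.1 := vB_ex hm (X.1, X.2.1)
  have e1 : (exj m X).1 = vA m X.1 X.2.1 := rfl
  have x0 : exm m 0 = m 0 := rfl
  have x1 : exm m 1 = m 2 := rfl
  have x2 : exm m 2 = m 1 := rfl
  refine Prod.ext rfl (Prod.ext rfl (Prod.ext ?_ ?_))
  · show vA m (JVF m X).2.2.1 (JVF m X).2.2.2 = (JVF (exm m) (exj m X)).2.2.1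
    simp only [JVF]
    rw [eA, eB, e1, FF_neg, x0, x1, x2]
    generalize FF X.1 = f
    generalize FF (vA m X.1 X.2.1) = g
    generalize FF (vB m X.1 X.2.1) = h
    simp only [vA, w1, mT]
    push_cast
    field_simp
    ring
  · show (JVF m X).2.2.1 - (w1 (exm m) : ℂ) * vA m (JVF m X).2.2.1 (JVF m X).2.2.2 =
      (JVF (exm m) (exj m X)).2.2.2
    simp only [JVF]
    rw [eA, eB, FF_neg, x0, x1]
    generalize FF X.1 = f
    generalize FF (vA m X.1 X.2.1) = g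
    generalize FF (vB m X.1 X.2.1) = h
    simp only [vA, w1, mT, x0, x1, x2]
    push_cast
    field_simp
    ring

lemma vf_sw (X : JS) : sw m (JVF m X) = JVF (swm m) (sw m X) := by
  have h0 := hm 0
  have h1 := hm 1
  have h2 := hm 2
  have c01 : ((m 0 : ℂ) + (m 1 : ℂ)) ≠ 0 := by
    rw [← Complex.ofReal_add]; exact_mod_cast (by positivity : m 0 + m 1 ≠ 0)
  have c21 : ((m 2 : ℂ) + (m 1 : ℂ)) ≠ 0 := by
    rw [← Complex.ofReal_add]; exact_mod_cast (by positivity : m 2 + m 1 ≠ 0)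
  have eA : vA (swm m) (sw m X).1 (sw m X).2.1 = -vA m X.1 X.2.1 := vA_sw (m := m) (X.1, X.2.1)
  have eB : vB (swm m) (sw m X).1 (sw m X).2.1 = -X.1 := vB_sw hm (X.1, X.2.1)
  have e1 : (sw m X).1 = -vB m X.1 X.2.1 := rfl
  have x0 : swm m 0 = m 2 := rfl
  have x1 : swm m 1 = m 1 := rfl
  have x2 : swm m 2 = m 0 := rfl
  refine Prod.ext rfl (Prod.ext rfl (Prod.ext ?_ ?_))
  · show -vB m (JVF m X).2.2.1 (JVF m X).2.2.2 = (JVF (swm m) (sw m X)).2.2.1
    simp only [JVF]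
    rw [eA, eB, e1, FF_neg, FF_neg, FF_neg, x0, x1, x2]
    generalize FF X.1 = f
    generalize FF (vA m X.1 X.2.1) = g
    generalize FF (vB m X.1 X.2.1) = h
    simp only [vB, w0, mT]
    push_cast
    field_simp
    ring
  · show -vA m (JVF m X).2.2.1 (JVF m X).2.2.2 + (w1 (swm m) : ℂ) *
      vB m (JVF m X).2.2.1 (JVF m X).2.2.2 = (JVF (swm m) (sw m X)).2.2.2
    simp only [JVF]
    rw [eA, eB, FF_neg, FF_neg, x0, x1]
    generalize FF X.1 = f
    generalize FF (vA m X.1 X.2.1) = g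
    generalize FF (vB m X.1 X.2.1) = h
    simp only [vA, vB, w0, w1, mT, x0, x1, x2]
    push_cast
    field_simp
    ring

/-! ### energy, angular momentum -/

omit hm in
lemma nsq (z : ℂ) : ‖z‖ ^ 2 = z.re ^ 2 + z.im ^ 2 := by
  rw [Complex.sq_norm, Complex.normSq_apply]
  ring

end

lemma cr_eq (z w : ℂ) : cr z w = z.re * w.im - z.im * w.re := by
  simp only [cr, Complex.mul_im, Complex.conj_re, Complex.conj_im]
  ring

section
variable {m : Fin 3 → ℝ} (hm : ∀ i, 0 < m i)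
include hm

lemma JE_ex (X : JS) : JE (exm m) (exj m X) = JE m X := by
  have h0 := hm 0
  have h1 := hm 1
  have h2 := hm 2
  have eA : vA (exm m) (exj m X).1 (exj m X).2.1 = X.1 := vA_ex (m := m) (X.1, X.2.1)
  have eB : vB (exm m) (exj m X).1 (exj m X).2.1 = -vB m X.1 X.2.1 := vB_ex hm (X.1, X.2.1)
  have e1 : (exj m X).1 = vA m X.1 X.2.1 := rfl
  have e3 : (exj m X).2.2.1 = vA m X.2.2.1 X.2.2.2 := rfl
  have e4 : (exj m X).2.2.2 = X.2.2.1 - (w1 (exm m) : ℂ) * vA m X.2.2.1 X.2.2.2 := rfl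
  have x0 : exm m 0 = m 0 := rfl
  have x1 : exm m 1 = m 2 := rfl
  have x2 : exm m 2 = m 1 := rfl
  have hk : k1 (exm m) / 2 * ‖(exj m X).2.2.1‖ ^ 2 + k2 (exm m) / 2 * ‖(exj m X).2.2.2‖ ^ 2 =
      k1 m / 2 * ‖X.2.2.1‖ ^ 2 + k2 m / 2 * ‖X.2.2.2‖ ^ 2 := by
    rw [nsq, nsq, nsq, nsq, e3, e4]
    simp only [k1, k2, vA, w1, x0, x1, x2, Complex.add_re, Complex.add_im, Complex.sub_re,
      Complex.sub_im, Complex.re_ofReal_mul, Complex.im_ofReal_mul]
    field_simp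
    ring
  simp only [JE]
  rw [hk, eA, eB, e1, x0, x1, x2, norm_neg]
  ring

lemma JE_sw (X : JS) : JE (swm m) (sw m X) = JE m X := by
  have h0 := hm 0
  have h1 := hm 1
  have h2 := hm 2
  have eA : vA (swm m) (sw m X).1 (sw m X).2.1 = -vA m X.1 X.2.1 := vA_sw (m := m) (X.1, X.2.1)
  have eB : vB (swm m) (sw m X).1 (sw m X).2.1 = -X.1 := vB_sw hm (X.1, X.2.1)
  have e1 : (sw m X).1 = -vB m X.1 X.2.1 := rfl
  have e3 : (sw m X).2.2.1 = -vB m X.2.2.1 X.2.2.2 := rfl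
  have e4 : (sw m X).2.2.2 = -vA m X.2.2.1 X.2.2.2 + (w1 (swm m) : ℂ) * vB m X.2.2.1 X.2.2.2 := rfl
  have x0 : swm m 0 = m 2 := rfl
  have x1 : swm m 1 = m 1 := rfl
  have x2 : swm m 2 = m 0 := rfl
  have hk : k1 (swm m) / 2 * ‖(sw m X).2.2.1‖ ^ 2 + k2 (swm m) / 2 * ‖(sw m X).2.2.2‖ ^ 2 =
      k1 m / 2 * ‖X.2.2.1‖ ^ 2 + k2 m / 2 * ‖X.2.2.2‖ ^ 2 := by
    rw [nsq, nsq, nsq, nsq, e3, e4]
    simp only [k1, k2, vA, vB, w0, w1, x0, x1, x2, Complex.add_re, Complex.add_im, Complex.sub_re,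
      Complex.sub_im, Complex.neg_re, Complex.neg_im, Complex.re_ofReal_mul, Complex.im_ofReal_mul]
    field_simp
    ring
  simp only [JE]
  rw [hk, eA, eB, e1, x0, x1, x2, norm_neg, norm_neg, norm_neg]
  ring

lemma JMu_ex (X : JS) : JMu (exm m) (exj m X) = JMu m X := by
  have h0 := hm 0
  have h1 := hm 1
  have h2 := hm 2
  have e1 : (exj m X).1 = vA m X.1 X.2.1 := rfl
  have e2 : (exj m X).2.1 = X.1 - (w1 (exm m) : ℂ) * vA m X.1 X.2.1 := rfl
  have e3 : (exj m X).2.2.1 = vA m X.2.2.1 X.2.2.2 := rfl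
  have e4 : (exj m X).2.2.2 = X.2.2.1 - (w1 (exm m) : ℂ) * vA m X.2.2.1 X.2.2.2 := rfl
  have x0 : exm m 0 = m 0 := rfl
  have x1 : exm m 1 = m 2 := rfl
  have x2 : exm m 2 = m 1 := rfl
  simp only [JMu]
  rw [cr_eq, cr_eq, cr_eq, cr_eq, e1, e2, e3, e4]
  simp only [k1, k2, vA, w1, x0, x1, x2, Complex.add_re, Complex.add_im, Complex.sub_re,
      Complex.sub_im, Complex.re_ofReal_mul, Complex.im_ofReal_mul]
  field_simp
  ring

lemma JMu_sw (X : JS) : JMu (swm m) (sw m X) = JMu m X := by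
  have h0 := hm 0
  have h1 := hm 1
  have h2 := hm 2
  have e1 : (sw m X).1 = -vB m X.1 X.2.1 := rfl
  have e2 : (sw m X).2.1 = -vA m X.1 X.2.1 + (w1 (swm m) : ℂ) * vB m X.1 X.2.1 := rfl
  have e3 : (sw m X).2.2.1 = -vB m X.2.2.1 X.2.2.2 := rfl
  have e4 : (sw m X).2.2.2 = -vA m X.2.2.1 X.2.2.2 + (w1 (swm m) : ℂ) * vB m X.2.2.1 X.2.2.2 := rfl
  have x0 : swm m 0 = m 2 := rfl
  have x1 : swm m 1 = m 1 := rfl
  have x2 : swm m 2 = m 0 := rfl
  simp only [JMu]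
  rw [cr_eq, cr_eq, cr_eq, cr_eq, e1, e2, e3, e4]
  simp only [k1, k2, vA, vB, w0, w1, x0, x1, x2, Complex.add_re, Complex.add_im, Complex.sub_re,
      Complex.sub_im, Complex.neg_re, Complex.neg_im, Complex.re_ofReal_mul, Complex.im_ofReal_mul]
  field_simp
  ring

/-! ### arcs -/

omit hm in
lemma dfst {E F : Type} [NormedAddCommGroup E] [NormedSpace ℝ E] [NormedAddCommGroup F]
    [NormedSpace ℝ F] {f : ℝ → E × F} {V : E × F} {s : Set ℝ} {t : ℝ}
    (h : HasDerivWithinAt f V s t) : HasDerivWithinAt (fun τ => (f τ).1) V.1 s t :=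
  (ContinuousLinearMap.fst ℝ E F).hasFDerivAt.comp_hasDerivWithinAt t h

omit hm in
lemma dsnd {E F : Type} [NormedAddCommGroup E] [NormedSpace ℝ E] [NormedAddCommGroup F]
    [NormedSpace ℝ F] {f : ℝ → E × F} {V : E × F} {s : Set ℝ} {t : ℝ}
    (h : HasDerivWithinAt f V s t) : HasDerivWithinAt (fun τ => (f τ).2) V.2 s t :=
  (ContinuousLinearMap.snd ℝ E F).hasFDerivAt.comp_hasDerivWithinAt t h

omit hm in
lemma der_ex {P : ℝ → JS} {V : JS} {s : Set ℝ} {t : ℝ} (h : HasDerivWithinAt P V s t) :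
    HasDerivWithinAt (fun τ => exj m (P τ)) (exj m V) s t := by
  have h1 := dfst h
  have h2 := dfst (dsnd h)
  have h3 := dfst (dsnd (dsnd h))
  have h4 := dsnd (dsnd (dsnd h))
  have a1 := h2.add (h1.const_mul (w1 m : ℂ))
  have a2 := h4.add (h3.const_mul (w1 m : ℂ))
  exact a1.prodMk ((h1.sub (a1.const_mul (w1 (exm m) : ℂ))).prodMk
    (a2.prodMk (h3.sub (a2.const_mul (w1 (exm m) : ℂ)))))

omit hm in
lemma der_sw {P : ℝ → JS} {V : JS} {s : Set ℝ} {t : ℝ} (h : HasDerivWithinAt P V s t) :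
    HasDerivWithinAt (fun τ => sw m (P τ)) (sw m V) s t := by
  have h1 := dfst h
  have h2 := dfst (dsnd h)
  have h3 := dfst (dsnd (dsnd h))
  have h4 := dsnd (dsnd (dsnd h))
  have a1 := h2.add (h1.const_mul (w1 m : ℂ))
  have a2 := h4.add (h3.const_mul (w1 m : ℂ))
  have b1 := h2.sub (h1.const_mul (w0 m : ℂ))
  have b2 := h4.sub (h3.const_mul (w0 m : ℂ))
  exact b1.neg.prodMk ((a1.neg.add (b1.const_mul (w1 (swm m) : ℂ))).prodMk
    (b2.neg.prodMk (a2.neg.add (b2.const_mul (w1 (swm m) : ℂ)))))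

omit hm in
lemma ex_smul (T : ℝ) (X : JS) : exj m (T • X) = T • exj m X := by
  refine Prod.ext ?_ (Prod.ext ?_ (Prod.ext ?_ ?_)) <;>
  · simp only [exj, exv, vA, Prod.smul_fst, Prod.smul_snd, Complex.real_smul]
    ring

omit hm in
lemma sw_smul (T : ℝ) (X : JS) : sw m (T • X) = T • sw m X := by
  refine Prod.ext ?_ (Prod.ext ?_ (Prod.ext ?_ ?_)) <;>
  · simp only [sw, swv, vA, vB, Prod.smul_fst, Prod.smul_snd, Complex.real_smul]
    ring

end

/-- LCH -/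
theorem lch : LchStmt := by
  intro m hm
  refine ⟨?_, ?_, exm_exm m, swm_swm m, ?_, ?_, ?_, ?_⟩
  · intro T P h τ hτ
    obtain ⟨hf, hd⟩ := h τ hτ
    refine ⟨free_ex hm hf, ?_⟩
    have := der_ex (m := m) hd
    rw [ex_smul, vf_ex hm] at this
    exact this
  · intro T P h τ hτ
    obtain ⟨hf, hd⟩ := h τ hτ
    refine ⟨free_sw hm hf, ?_⟩
    have := der_sw (m := m) hd
    rw [sw_smul, vf_sw hm] at this
    exact this
  · intro X
    have h1 := swv_swv hm (X.1, X.2.1)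
    have h2 := swv_swv hm (X.2.2.1, X.2.2.2)
    have a1 := congrArg Prod.fst h1
    have a2 := congrArg Prod.snd h1
    have a3 := congrArg Prod.fst h2
    have a4 := congrArg Prod.snd h2
    exact Prod.ext a1 (Prod.ext a2 (Prod.ext a3 a4))
  · intro X
    have h1 := exv_exv hm (X.1, X.2.1)
    have h2 := exv_exv hm (X.2.2.1, X.2.2.2)
    have a1 := congrArg Prod.fst h1
    have a2 := congrArg Prod.snd h1
    have a3 := congrArg Prod.fst h2
    have a4 := congrArg Prod.snd h2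
    exact Prod.ext a1 (Prod.ext a2 (Prod.ext a3 a4))
  · intro X h
    exact ⟨free_sw hm h.1, by rw [JE_sw hm]; exact h.2.1, by rw [JMu_sw hm]; exact h.2.2⟩
  · intro X h
    exact ⟨free_ex hm h.1, by rw [JE_ex hm]; exact h.2.1, by rw [JMu_ex hm]; exact h.2.2⟩

end

end Pool.Agent.HM.H34
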