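import Pool.Agent.Helper49_HM.MirS
import Pool.Agent.Helper53_TrInd.Miranda

/-!
# Poincaré–Miranda for the cyclic chain
-/

namespace Pool.Agent.HM.H34

open Complex Set Topology Pool.Agent.HM

noncomputable section

/-- parameter number `i` (mod `n`) of the point `x` of the cube -/
def xi (n : ℕ) (hn : 0 < n) (x : Icc (0 : Fin n × Fin 4 → ℝ) 1) (i : ℕ) : Fin 4 → ℝ :=
  fun j => 2 * x.1 (⟨i % n, Nat.mod_lt _ hn⟩, j) - 1

lemma xi_box (n : ℕ) (hn : 0 < n) (x : Icc (0 : Fin n × Fin 4 → ℝ) 1) (i : ℕ) :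
    xi n hn x i ∈ box4 := by
  constructor
  · intro j
    have := x.2.1 (⟨i % n, Nat.mod_lt _ hn⟩, j)
    simp only [Pi.zero_apply] at this
    simp only [xi]
    linarith
  · intro j
    have := x.2.2 (⟨i % n, Nat.mod_lt _ hn⟩, j)
    simp only [Pi.one_apply] at this
    simp only [xi]
    linarith

lemma xi_cont (n : ℕ) (hn : 0 < n) (i : ℕ) : Continuous fun x => xi n hn x i := by
  refine continuous_pi fun j => ?_
  have : Continuous fun x : Icc (0 : Fin n × Fin 4 → ℝ) 1 =>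
      x.1 (⟨i % n, Nat.mod_lt _ hn⟩, j) :=
    (continuous_apply _).comp continuous_subtype_val
  exact (continuous_const.mul this).sub continuous_const

lemma xi_mod (n : ℕ) (hn : 0 < n) (x : Icc (0 : Fin n × Fin 4 → ℝ) 1) {i j : ℕ}
    (h : i % n = j % n) : xi n hn x i = xi n hn x j := by
  funext a
  have e : (⟨i % n, Nat.mod_lt _ hn⟩ : Fin n) = ⟨j % n, Nat.mod_lt _ hn⟩ := Fin.ext h
  simp only [xi, e]

lemma chain_zero (n : ℕ) (hn : 0 < n) (F : ℕ → (Fin 4 → ℝ) → (Fin 4 → ℝ) → Fin 4 → ℝ)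
    (hc : ∀ i < n, ∀ j, ContinuousOn (fun p : (Fin 4 → ℝ) × (Fin 4 → ℝ) => F i p.1 p.2 j)
      (box4 ×ˢ box4))
    (f0 : ∀ i < n, ∀ ξ ∈ box4, ∀ ξ' ∈ box4, (ξ' 0 = -1 → F i ξ ξ' 0 ≤ 0) ∧
      (ξ' 0 = 1 → 0 ≤ F i ξ ξ' 0))
    (f1 : ∀ i < n, ∀ ξ ∈ box4, ∀ ξ' ∈ box4, (ξ 1 = -1 → F i ξ ξ' 1 ≤ 0) ∧
      (ξ 1 = 1 → 0 ≤ F i ξ ξ' 1))
    (f2 : ∀ i < n, ∀ ξ ∈ box4, ∀ ξ' ∈ box4, (ξ' 2 = -1 → F i ξ ξ' 2 ≤ 0) ∧
      (ξ' 2 = 1 → 0 ≤ F i ξ ξ' 2))
    (f3 : ∀ i < n, ∀ ξ ∈ box4, ∀ ξ' ∈ box4, (ξ 3 = -1 → F i ξ ξ' 3 ≤ 0) ∧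
      (ξ 3 = 1 → 0 ≤ F i ξ ξ' 3)) :
    ∃ ξ : ℕ → Fin 4 → ℝ, (∀ i, ξ i ∈ box4) ∧ ξ n = ξ 0 ∧
      ∀ i < n, ∀ j, F i (ξ i) (ξ (i + 1)) j = 0 := by
  classical
  -- equation `(i, j)`
  let pr : Fin n × Fin 4 → ℕ := fun a => if a.2 = 0 ∨ a.2 = 2 then (a.1.1 + (n - 1)) % n else a.1.1
  have hpr : ∀ a, pr a < n := by
    intro a
    simp only [pr]
    split_ifs
    · exact Nat.mod_lt _ hn
    · exact a.1.2
  have hpm : ∀ i : Fin n, ((i.1 + (n - 1)) % n + 1) % n = i.1 % n := by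
    intro i
    rw [Nat.mod_add_mod]
    have : i.1 + (n - 1) + 1 = i.1 + n := by omega
    rw [this, Nat.add_mod_right]
  obtain ⟨x, hx⟩ := Pool.Agent.Helper53_TrInd.miranda
    (fun (a : Fin n × Fin 4) x => F (pr a) (xi n hn x (pr a)) (xi n hn x (pr a + 1)) a.2)
    (fun a => by
      have h1 := hc (pr a) (hpr a) a.2
      exact h1.comp_continuous ((xi_cont n hn (pr a)).prodMk (xi_cont n hn (pr a + 1)))
        (fun x => ⟨xi_box n hn x _, xi_box n hn x _⟩))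
    (fun a x hx => by
      obtain ⟨i, j⟩ := a
      have e1 : xi n hn x i.1 j = -1 := by
        simp only [xi]
        have : (⟨i.1 % n, Nat.mod_lt _ hn⟩ : Fin n) = i := Fin.ext (Nat.mod_eq_of_lt i.2)
        rw [this, hx]
        norm_num
      have e2 : xi n hn x ((i.1 + (n - 1)) % n + 1) = xi n hn x i.1 := xi_mod n hn x (hpm i)
      by_cases hj : j = 0 ∨ j = 2
      · have hp : pr (i, j) = (i.1 + (n - 1)) % n := by simp only [pr]; rw [if_pos hj]
        have hp' := hpr (i, j)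
        rw [hp] at hp'
        simp only [hp]
        rcases hj with rfl | rfl
        · exact (f0 _ hp' _ (xi_box n hn x _) _ (xi_box n hn x _)).1 (by rw [e2]; exact e1)
        · exact (f2 _ hp' _ (xi_box n hn x _) _ (xi_box n hn x _)).1 (by rw [e2]; exact e1)
      · have hp : pr (i, j) = i.1 := by simp only [pr]; rw [if_neg hj]
        simp only [hp]
        have hj' : j = 1 ∨ j = 3 := by
          fin_cases j <;> simp_all
        rcases hj' with rfl | rfl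
        · exact (f1 _ i.2 _ (xi_box n hn x _) _ (xi_box n hn x _)).1 e1
        · exact (f3 _ i.2 _ (xi_box n hn x _) _ (xi_box n hn x _)).1 e1)
    (fun a x hx => by
      obtain ⟨i, j⟩ := a
      have e1 : xi n hn x i.1 j = 1 := by
        simp only [xi]
        have : (⟨i.1 % n, Nat.mod_lt _ hn⟩ : Fin n) = i := Fin.ext (Nat.mod_eq_of_lt i.2)
        rw [this, hx]
        norm_num
      have e2 : xi n hn x ((i.1 + (n - 1)) % n + 1) = xi n hn x i.1 := xi_mod n hn x (hpm i)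
      by_cases hj : j = 0 ∨ j = 2
      · have hp : pr (i, j) = (i.1 + (n - 1)) % n := by simp only [pr]; rw [if_pos hj]
        have hp' := hpr (i, j)
        rw [hp] at hp'
        simp only [hp]
        rcases hj with rfl | rfl
        · exact (f0 _ hp' _ (xi_box n hn x _) _ (xi_box n hn x _)).2 (by rw [e2]; exact e1)
        · exact (f2 _ hp' _ (xi_box n hn x _) _ (xi_box n hn x _)).2 (by rw [e2]; exact e1)
      · have hp : pr (i, j) = i.1 := by simp only [pr]; rw [if_neg hj]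
        simp only [hp]
        have hj' : j = 1 ∨ j = 3 := by
          fin_cases j <;> simp_all
        rcases hj' with rfl | rfl
        · exact (f1 _ i.2 _ (xi_box n hn x _) _ (xi_box n hn x _)).2 e1
        · exact (f3 _ i.2 _ (xi_box n hn x _) _ (xi_box n hn x _)).2 e1)
  refine ⟨fun i => xi n hn x i, fun i => xi_box n hn x i, xi_mod n hn x (by simp), ?_⟩
  intro i hi j
  by_cases hj : j = 0 ∨ j = 2
  · have h1 := hx (⟨(i + 1) % n, Nat.mod_lt _ hn⟩, j)
    have hp : pr (⟨(i + 1) % n, Nat.mod_lt _ hn⟩, j) = i := by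
      simp only [pr]
      rw [if_pos hj, Nat.mod_add_mod]
      have : i + 1 + (n - 1) = i + n := by omega
      rw [this, Nat.add_mod_right, Nat.mod_eq_of_lt hi]
    simp only [hp] at h1
    exact h1
  · have h1 := hx (⟨i, hi⟩, j)
    have hp : pr (⟨i, hi⟩, j) = i := by simp only [pr]; rw [if_neg hj]
    simp only [hp] at h1
    exact h1

lemma near1_lab {ε : ℝ} {m : Fin 3 → ℝ} (h : Near1 ε m) (l : Equiv.Perm (Fin 3)) :
    Near1 ε (lab m l) := fun i => h (l i)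

/-- M4 -/
theorem m4 : M4Stmt := by
  intro hFar hSteq hLift hGg hLink
  obtain ⟨ε, hε, H⟩ := hLink hFar hSteq hLift hGg
  refine ⟨ε, hε, ?_⟩
  intro m hm dA dB PA PB θA θB hyp
  obtain ⟨nA1, nB1, l1⟩ := hyp (lab m lz) (Or.inl rfl)
  obtain ⟨nA2, nB2, l2⟩ := hyp (lab m lw) (Or.inr rfl)
  obtain ⟨N1, a1, b1⟩ := H _ (near1_lab hm lz) _ _ _ _ _ _ nA1 nB1 l1.1 l1.2.1
  obtain ⟨N2, a2, b2⟩ := H _ (near1_lab hm lw) _ _ _ _ _ _ nA2 nB2 l2.1 l2.2.1
  refine ⟨max N1 N2, ?_⟩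
  intro k N hk hN
  have key : ∀ i, i < 4 * k → ∃ F, Link (lab m (if i % 4 < 2 then lz else lw))
      ((if i % 2 = 0 then PB else PA) (lab m (if i % 4 < 2 then lz else lw)))
      ((if i % 2 = 0 then PA else PB) (lab m (if i % 4 < 2 then lz else lw)))
      ((if i % 2 = 0 then θB else θA) (lab m (if i % 4 < 2 then lz else lw)))
      ((if i % 2 = 0 then θA else θB) (lab m (if i % 4 < 2 then lz else lw))) (N i) F := by
    intro i hi
    have h1 := hN i hi
    have m1 : ((N1 : ℕ) : ℤ) ≤ ((max N1 N2 : ℕ) : ℤ) := by exact_mod_cast le_max_left _ _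
    have m2 : ((N2 : ℕ) : ℤ) ≤ ((max N1 N2 : ℕ) : ℤ) := by exact_mod_cast le_max_right _ _
    by_cases h2 : i % 2 = 0
    · simp only [h2, if_true] at h1 ⊢
      by_cases h4 : i % 4 < 2
      · simp only [h4, if_true]
        exact a1 _ (m1.trans h1)
      · simp only [h4, if_false]
        exact a2 _ (m2.trans h1)
    · simp only [h2, if_false] at h1 ⊢
      by_cases h4 : i % 4 < 2
      · simp only [h4, if_true]
        exact b1 _ (m1.trans h1)
      · simp only [h4, if_false]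
        exact b2 _ (m2.trans h1)
  choose! F hF using key
  obtain ⟨ξ, hb, hper, h0⟩ := chain_zero (4 * k) (by omega) F
    (fun i hi j => (hF i hi).cont j) (fun i hi => (hF i hi).f0) (fun i hi => (hF i hi).f1)
    (fun i hi => (hF i hi).f2) (fun i hi => (hF i hi).f3)
  have key2 : ∀ i, i < 4 * k → ∃ (dur : ℝ) (Q : ℝ → JS) (u : ℂ), 0 < dur ∧ ‖u‖ = 1 ∧
      IsNArc (lab m (if i % 4 < 2 then lz else lw)) dur Q ∧
      Q 0 = (if i % 2 = 0 then PB else PA) (lab m (if i % 4 < 2 then lz else lw)) (ξ i) 1 ∧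
      rotJ u (Q 1) = rev ((if i % 2 = 0 then PA else PB)
        (lab m (if i % 4 < 2 then lz else lw)) (RX (ξ (i + 1))) 1) ∧
      ZonePath (fun τ => zc (lab m (if i % 4 < 2 then lz else lw)) (Q τ))
        (zc (lab m (if i % 4 < 2 then lz else lw)) (Q 0))
        (zc (lab m (if i % 4 < 2 then lz else lw)) (Q 1))
        ((if i % 2 = 0 then θB else θA) (lab m (if i % 4 < 2 then lz else lw)) (ξ i) 1)
        ((if i % 2 = 0 then θA else θB) (lab m (if i % 4 < 2 then lz else lw)) (RX (ξ (i + 1))) 1 +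
          2 * Real.pi * N i) := by
    intro i hi
    exact (hF i hi).zero (ξ i) (hb i) (ξ (i + 1)) (hb (i + 1)) (h0 i hi)
  choose! dur Q u hpos hunit harc hstart hstop hpath using key2
  exact ⟨ξ, dur, Q, u, ⟨fun i _ => hb i, hper, hpos, hunit, harc, hstart, hstop, hpath⟩⟩

end

end Pool.Agent.HM.H34
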